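import Pool.Agent.H867.FT.Gen11
import Pool.Agent.H102.FT867DES

/-!
# TEX: torsion extends along flat maps
-/

set_option autoImplicit false

namespace Pool.Agent.H120.FT.TEX

open Pool.Agent.H867.FT Pool.Agent.H102.FT.DES

theorem tex (h : Pool.Agent.H867.FT.S_FDV) : Pool.Agent.H867.FT.S_TEX := by
  intro R T K K' _ _ _ _ _ _ _ _ _ _ _ _ _ j hj D hD hD0 hT
  obtain ⟨n, hn, t, ht⟩ := hT
  have hX0 : D ^ n ≠ ⊥ := pow_ne_bot D hD0 n
  have hXf : (D ^ n).FG := hD.pow n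
  have h1 : E T j (1 / D ^ n) = 1 / E T j (D ^ n) := h R T K K' j hj (D ^ n) hXf hX0
  have h2 : E T j (1 / (1 / D ^ n)) = 1 / E T j (1 / D ^ n) :=
    h R T K K' j hj (1 / D ^ n) (inv_fg _ hX0) (inv_ne_bot _ hXf)
  rw [h1, E_pow j hj] at h2
  refine ⟨n, hn, j t, ?_⟩
  change 1 / (1 / E T j D ^ n) = Submodule.span T {j t}
  rw [← h2, ht]
  apply le_antisymm
  · refine Submodule.span_le.mpr ?_
    rintro _ ⟨z, hz, rfl⟩
    obtain ⟨r, rfl⟩ := Submodule.mem_span_singleton.mp hz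
    refine Submodule.mem_span_singleton.mpr ⟨algebraMap R T r, ?_⟩
    rw [Algebra.smul_def, Algebra.smul_def, map_mul, hj r]
  · rw [Submodule.span_singleton_le_iff_mem]
    exact Submodule.subset_span ⟨t, Submodule.mem_span_singleton_self t, rfl⟩

end Pool.Agent.H120.FT.TEX
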