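import Pool.Agent.H666.TK.SpecC

/-!
TK C12: numerical facts.
-/

set_option autoImplicit false

open Finset
open scoped Classical

namespace Pool.Agent.H120.TKnum

open Pool.Agent.H666.TK

theorem sum1 (n : ℕ) : ∑ x ∈ range n, (x : ℝ) = (n : ℝ) * (n - 1) / 2 := by
  induction n with
  | zero => simp
  | succ n ih => rw [Finset.sum_range_succ, ih]; push_cast; ring

theorem sum2 (n : ℕ) : ∑ x ∈ range n, (x : ℝ) ^ 2 = (n : ℝ) * (n - 1) * (2 * n - 1) / 6 := by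
  induction n with
  | zero => simp
  | succ n ih => rw [Finset.sum_range_succ, ih]; push_cast; ring

theorem sum_pairs (f : ℕ → ℝ) (K : ℕ) :
    ∑ r ∈ range (2 * K), f r = ∑ i ∈ range K, (f (2 * i) + f (2 * i + 1)) := by
  induction K with
  | zero => simp
  | succ n ih =>
    rw [Finset.sum_range_succ, ← ih, show 2 * (n + 1) = 2 * n + 1 + 1 by ring,
      Finset.sum_range_succ, Finset.sum_range_succ]
    ring

theorem sumG (K : ℕ) : ∑ r ∈ range (2 * K), (min (r : ℝ) (2 * K - r)) ^ 2 =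
    (2 * (K : ℝ) ^ 3 + K) / 3 := by
  rw [show 2 * K = K + K by ring, Finset.sum_range_add]
  have h1 : ∑ x ∈ range K, (min (x : ℝ) (2 * K - x)) ^ 2 = ∑ x ∈ range K, (x : ℝ) ^ 2 := by
    refine Finset.sum_congr rfl fun x hx => ?_
    have hx' : (x : ℝ) ≤ K := by exact_mod_cast (Finset.mem_range.1 hx).le
    rw [min_eq_left (by linarith)]
  have h2 : ∑ x ∈ range K, (min ((K + x : ℕ) : ℝ) (2 * K - (K + x : ℕ))) ^ 2 =
      ∑ x ∈ range K, ((x : ℝ) ^ 2 - 2 * K * x + (K : ℝ) ^ 2) := by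
    refine Finset.sum_congr rfl fun x hx => ?_
    have hx' : (0 : ℝ) ≤ x := by positivity
    push_cast
    rw [min_eq_right (by linarith)]
    ring
  rw [h1, h2, Finset.sum_add_distrib, Finset.sum_sub_distrib, ← Finset.mul_sum, sum1, sum2,
    Finset.sum_const, Finset.card_range, nsmul_eq_mul]
  ring

section

variable {K : ℕ} {ρ : ℝ}

theorem t_bd (hK : 1 ≤ K) (r : ℕ) (hr : r ≤ 2 * K) :
    0 ≤ (r : ℝ) / ((2 * K : ℕ) : ℝ) ∧ (r : ℝ) / ((2 * K : ℕ) : ℝ) ≤ 1 := by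
  have hK' : (0 : ℝ) < ((2 * K : ℕ) : ℝ) := by exact_mod_cast (by omega : 0 < 2 * K)
  refine ⟨by positivity, ?_⟩
  rw [div_le_one hK']
  exact_mod_cast hr

theorem y_bd (h0 : 0 ≤ ρ) (h1 : ρ ≤ 27 / 100) {t : ℝ} (ht : 0 ≤ t) (ht1 : t ≤ 1) :
    0 ≤ ρ * t ^ 2 ∧ ρ * t ^ 2 ≤ 27 / 100 := by
  have h2 : t ^ 2 ≤ 1 := by nlinarith
  have h3 : 0 ≤ t ^ 2 := by positivity
  refine ⟨by positivity, ?_⟩
  nlinarith

theorem lam_bd (hK : 1 ≤ K) (h0 : 0 ≤ ρ) (h1 : ρ ≤ 27 / 100) (r : Fin (2 * K)) :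
    1 ≤ lam ρ (2 * K) r ∧ lam ρ (2 * K) r ≤ 100 / 73 := by
  obtain ⟨a1, a2⟩ := t_bd hK (r : ℕ) r.2.le
  obtain ⟨b1, b2⟩ := y_bd h0 h1 a1 a2
  unfold lam
  constructor
  · rw [le_div_iff₀ (by linarith)]
    linarith
  · rw [div_le_iff₀ (by linarith)]
    linarith

theorem GG_bd (hK : 1 ≤ K) (r : Fin (2 * K)) :
    0 ≤ GG K r ∧ GG K r ≤ ((r : ℕ) : ℝ) / (2 * K) ∧ GG K r ≤ 1 / 2 := by
  have hK' : (0 : ℝ) < 2 * (K : ℝ) := by
    have : (1 : ℝ) ≤ K := by exact_mod_cast hK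
    linarith
  have hr : ((r : ℕ) : ℝ) ≤ 2 * K := by exact_mod_cast r.2.le
  have hr0 : (0 : ℝ) ≤ ((r : ℕ) : ℝ) := by positivity
  unfold GG
  refine ⟨?_, ?_, ?_⟩
  · apply div_nonneg _ hK'.le
    exact le_min hr0 (by linarith)
  · exact div_le_div_of_nonneg_right (min_le_left _ _) hK'.le
  · rw [div_le_iff₀ hK']
    have h1 := min_le_left ((r : ℕ) : ℝ) (2 * K - ((r : ℕ) : ℝ))
    have h2 := min_le_right ((r : ℕ) : ℝ) (2 * K - ((r : ℕ) : ℝ))
    linarith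

theorem psi_anti {y₁ y₂ : ℝ} (h : y₁ ≤ y₂) (h0 : 0 ≤ y₁) (h1 : y₂ ≤ 27 / 100) :
    - Real.log (1 - y₂) - y₂ / (1 - y₂) ≤ - Real.log (1 - y₁) - y₁ / (1 - y₁) := by
  have c1 : 0 < 1 - y₁ := by linarith
  have c2 : 0 < 1 - y₂ := by linarith
  have e1 := Real.log_le_sub_one_of_pos (div_pos c1 c2)
  rw [Real.log_div c1.ne' c2.ne'] at e1
  have e2 : (1 - y₁) / (1 - y₂) - 1 ≤ y₂ / (1 - y₂) - y₁ / (1 - y₁) := by
    rw [div_sub_div _ _ c2.ne' c1.ne', div_sub_one c2.ne', div_le_div_iff₀ c2 (by positivity)]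
    have e3 : 0 ≤ (y₂ - y₁) * (1 - y₂) * y₁ := by
      have : 0 ≤ y₂ - y₁ := by linarith
      positivity
    nlinarith
  linarith

end

theorem num : S_num := by
  intro K ρ hK h0 h1
  have hK1 : (1 : ℝ) ≤ K := by exact_mod_cast hK
  have hK' : (0 : ℝ) < 2 * (K : ℝ) := by linarith
  have hlam := lam_bd hK h0 h1
  have hG := GG_bd hK
  have hc : ((2 * K : ℕ) : ℝ) = 2 * (K : ℝ) := by push_cast; ring
  have ht : ∀ r : Fin (2 * K), 0 ≤ ((r : ℕ) : ℝ) / (2 * K) ∧ ((r : ℕ) : ℝ) / (2 * K) ≤ 1 := by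
    intro r
    have := t_bd hK (r : ℕ) r.2.le
    rwa [hc] at this
  have hGam : 1 / 12 ≤ Gam K (lam ρ (2 * K)) := by
    unfold Gam
    rw [le_div_iff₀ hK']
    have e1 : ∑ r : Fin (2 * K), GG K r ^ 2 = (2 * (K : ℝ) ^ 3 + K) / 3 / (2 * K) ^ 2 := by
      rw [← sumG K, Finset.sum_div,
        ← Fin.sum_univ_eq_sum_range (fun r : ℕ => (min (r : ℝ) (2 * K - r)) ^ 2 / (2 * (K : ℝ)) ^ 2)]
      refine Finset.sum_congr rfl fun r _ => ?_
      rw [GG, div_pow]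
    have e2 : ∑ r : Fin (2 * K), GG K r ^ 2 ≤ ∑ r, lam ρ (2 * K) r * GG K r ^ 2 := by
      refine Finset.sum_le_sum fun r _ => ?_
      have := (hlam r).1
      have h3 : 0 ≤ GG K r ^ 2 := by positivity
      nlinarith
    have e3 : 1 / 12 * (2 * (K : ℝ)) ≤ (2 * (K : ℝ) ^ 3 + K) / 3 / (2 * K) ^ 2 := by
      rw [div_div, le_div_iff₀ (by positivity)]
      nlinarith
    linarith
  have hTheG : Gam K (lam ρ (2 * K)) ≤ The K (lam ρ (2 * K)) := by
    unfold Gam The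
    apply div_le_div_of_nonneg_right _ hK'.le
    refine Finset.sum_le_sum fun r _ => ?_
    obtain ⟨g1, g2, g3⟩ := hG r
    have h3 := (hlam r).1
    rw [pow_two, ← mul_assoc]
    apply mul_le_mul_of_nonneg_right _ g1
    exact mul_le_mul_of_nonneg_left g2 (by linarith)
  refine ⟨fun r => (hlam r).1, hGam, hGam.trans hTheG, ?_, ?_, ?_, ?_, ?_⟩
  · unfold The
    rw [div_le_one hK']
    have e1 : ∑ r : Fin (2 * K), lam ρ (2 * K) r * (((r : ℕ) : ℝ) / (2 * K)) * GG K r ≤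
        ∑ _r : Fin (2 * K), (1 : ℝ) := by
      refine Finset.sum_le_sum fun r _ => ?_
      obtain ⟨g1, g2, g3⟩ := hG r
      obtain ⟨l1, l2⟩ := hlam r
      obtain ⟨t1, t2⟩ := ht r
      have a1 : lam ρ (2 * K) r * (((r : ℕ) : ℝ) / (2 * K)) ≤ 2 := by nlinarith
      have a2 : 0 ≤ lam ρ (2 * K) r * (((r : ℕ) : ℝ) / (2 * K)) := by positivity
      nlinarith
    rw [Finset.sum_const, Finset.card_univ, Fintype.card_fin, nsmul_eq_mul, mul_one, hc] at e1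
    exact e1
  · unfold Lam
    apply div_nonneg _ hK'.le
    refine Finset.sum_nonneg fun r _ => ?_
    have := (hlam r).1
    positivity
  · unfold Lam
    rw [div_le_iff₀ hK']
    have e1 : ∑ r : Fin (2 * K), lam ρ (2 * K) r * (((r : ℕ) : ℝ) / (2 * K)) ^ 2 ≤
        ∑ r : Fin (2 * K), 100 / 73 * (((r : ℕ) : ℝ) / (2 * K)) ^ 2 := by
      refine Finset.sum_le_sum fun r _ => ?_
      exact mul_le_mul_of_nonneg_right (hlam r).2 (by positivity)
    have e2 : ∑ r : Fin (2 * K), 100 / 73 * (((r : ℕ) : ℝ) / (2 * K)) ^ 2 =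
        100 / 73 * ((2 * (K : ℝ)) * (2 * K - 1) * (2 * (2 * K) - 1) / 6 / (2 * K) ^ 2) := by
      rw [← Finset.mul_sum]
      congr 1
      have e3 := sum2 (2 * K)
      rw [hc] at e3
      rw [← e3, Finset.sum_div,
        ← Fin.sum_univ_eq_sum_range (fun r : ℕ => (r : ℝ) ^ 2 / (2 * (K : ℝ)) ^ 2)]
      refine Finset.sum_congr rfl fun r _ => ?_
      rw [div_pow]
    have e3 : 100 / 73 * ((2 * (K : ℝ)) * (2 * K - 1) * (2 * (2 * K) - 1) / 6 / (2 * K) ^ 2) ≤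
        1 / 2 * (2 * K) := by
      generalize hn : 2 * (K : ℝ) = n
      have hn1 : 1 ≤ n := by linarith
      have e4 : n * (n - 1) * (2 * n - 1) / 6 / n ^ 2 ≤ n / 3 := by
        rw [div_div, div_le_iff₀ (by positivity)]
        nlinarith [mul_nonneg (by linarith : 0 ≤ n) (by linarith : 0 ≤ 3 * n - 1)]
      nlinarith
    linarith
  · intro r s hrs
    unfold psi
    obtain ⟨a1, a2⟩ := t_bd hK (r : ℕ) r.2.le
    obtain ⟨b1, b2⟩ := t_bd hK (s : ℕ) s.2.le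
    obtain ⟨c1, c2⟩ := y_bd h0 h1 a1 a2
    obtain ⟨d1, d2⟩ := y_bd h0 h1 b1 b2
    refine psi_anti ?_ c1 d2
    apply mul_le_mul_of_nonneg_left _ h0
    apply pow_le_pow_left₀ a1
    apply div_le_div_of_nonneg_right _ (by positivity)
    exact_mod_cast hrs
  · set h : ℕ → ℝ := fun r => - Real.log (1 - ρ * ((r : ℝ) / ((2 * K : ℕ) : ℝ)) ^ 2) with hh
    have e1 : ∑ r : Fin (2 * K), (- Real.log (1 - ρ * (((r : ℕ) : ℝ) / ((2 * K : ℕ) : ℝ)) ^ 2)) =
        ∑ r ∈ range (2 * K), h r := Fin.sum_univ_eq_sum_range h (2 * K)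
    rw [e1, sum_pairs]
    have e2 : (K : ℝ) * ((∑ i ∈ range K, (h (2 * i) + h (2 * i + 1))) / (2 * K)) =
        ∑ i ∈ range K, (h (2 * i) + h (2 * i + 1)) / 2 := by
      rw [← Finset.sum_div]
      have : (K : ℝ) ≠ 0 := by linarith
      field_simp
    rw [e2]
    refine Finset.sum_le_sum fun i hi => ?_
    have hi' := Finset.mem_range.1 hi
    have e3 : - Real.log (1 - ρ * ((i : ℝ) / K) ^ 2) = h (2 * i) := by
      rw [hh]
      simp only
      have : (i : ℝ) / K = ((2 * i : ℕ) : ℝ) / ((2 * K : ℕ) : ℝ) := by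
        push_cast
        rw [mul_div_mul_left _ _ (by norm_num : (2 : ℝ) ≠ 0)]
      rw [this]
    have e4 : h (2 * i) ≤ h (2 * i + 1) := by
      obtain ⟨a1, a2⟩ := t_bd hK (2 * i) (by omega)
      obtain ⟨b1, b2⟩ := t_bd hK (2 * i + 1) (by omega)
      obtain ⟨c1, c2⟩ := y_bd h0 h1 a1 a2
      obtain ⟨d1, d2⟩ := y_bd h0 h1 b1 b2
      have e5 : ρ * (((2 * i : ℕ) : ℝ) / ((2 * K : ℕ) : ℝ)) ^ 2 ≤
          ρ * (((2 * i + 1 : ℕ) : ℝ) / ((2 * K : ℕ) : ℝ)) ^ 2 := by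
        apply mul_le_mul_of_nonneg_left _ h0
        apply pow_le_pow_left₀ a1
        apply div_le_div_of_nonneg_right _ (by positivity)
        exact_mod_cast (by omega : 2 * i ≤ 2 * i + 1)
      rw [hh]
      simp only
      apply neg_le_neg
      apply Real.log_le_log (by linarith)
      linarith
    rw [e3]
    linarith

end Pool.Agent.H120.TKnum
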